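/-!
Notes (paper only, no result) on the improvement of `c_n ≤ μ^n exp(K log² n)` for planar
self-avoiding walks (MP_d98d96_pr, MP_376faf_co), helper21, for a later run.

Setting.  Bridges at `z_c`, `B(n)` mass of width `n`, `λ` irreducible ones, `U_q = ∑_{n≤q} B(n)`,
`Λ_q = ∑_{n≥q} λ(n)`, `U_q Λ_q ≤ 1`, `U_q K_q ≤ C q`, `s_q = (U_{2q}-U_q)/U_q`.
Strand `β = X k Y`, `k` = irreducible piece covering a mark at depth about `q`.  The only loss in
`TH508.LT.ChnP` is the sum `Ec` (a fold with an arbitrarily narrow side, the wide piece dropped).

1. Walls.  Let `U(64 q') ≤ c1 U(q)`.  For the fold `(k Y | U')`, `wd Y < q'`, resolve all walls of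
`k` with peak within `8 q'` of the fold: `k Y = A0 | M0 | A1 | M1 | ... | Mj | B`.  Every valley
`(M_i | A_{i+1})` has `|wd M_i - wd A_{i+1}| ≤ 8 q'`, which costs a factor `c1`: either one of the
two strands has a free end of scale `> q'` (then its width is pinned in a window of length `8 q'`,
mass `U(8q')` instead of `U(q)`), or both ends at the valley are `< q'` and the fold has mass
`U(q')` instead of `U(q)`.  With `Θ` = normalised weight of a mixed fold:
`Θ ≤ L1 + C + ∑_j C (C c1 Θ³)^j`, which closes by induction on the length if `c1 L1³` is small.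

2. Where this is NOT complete (found while writing it out).  All of (1) is fine if `U` grows
regularly (`U_{2q} ≥ (1+c) U_q`).  If `U` is nearly constant on `[q', q]`, the folds which are not
pinned by a wide piece are not under control: in `(Y | X_1 ι' X_2)`, `wd Y ~ a ≥ q'`,
`X_1` short, `ι'` of width `r` with `a ≪ r ≤ q`, the T-moves of scale `a` merge `ι'` with the
pieces of `Y`, so the class `W` has mass `U_a λ_r` instead of `u_a λ_r`, and one gets one unit per
dyadic scale `a ∈ [q', q]`, i.e. `L1 = log(q/q')` and not `log(1/c1)`.  (T-moves of scale `g` are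
lossless only if at least one side has a renewal at depth in `[4g, 16g]`; if both are covered at
that scale, `W` contains the merged irreducible pieces.)

3. Amortisation.  The crude unit per scale comes with a factor `σ_q = λ[q,16q) U_q` or `s_q`, and
`∑_q s_q log(q/q') = ∑_a ∑_{q ≥ a, U_q ≤ U_a/c1} s_q ≤ C log n · log(1/c1)`.
With `c1 = (log n)^{-8}` (walls bounded by the old log bounds) this gives per-scale exponents
`A_q ≤ C(1 + σ_q R_q² (loglog n)^C)`, `R_q = log(q/q')` (the square: a strand `X k Y` with both
`X, Y ∈ [q', q]` pays at both of its folds).  Together with the old bound `A_q ≤ C σ_q log q` on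
the scales with `R_q ≥ √(log n)` the total is `exp(C (log n)^{3/2} (loglog n)^C)`; if the square
could be avoided it would be `exp(C log n (loglog n)^C)`.
A second moment idea for the merged classes: if a bridge has `k` foldable renewals in a zone the
`k(k-1)/2` T-moves give different merged bridges, hence `E[k; open] ≤ √(E[k²] P(open))`, i.e.
`√s_a` instead of `1` per scale; all even subsets of marks would give `s_a log(1/s_a)`.

4. Exact renewal inequality: for a renewal sequence `b` with jumps `λ` and `B = b * 1_[0,a)`,
`∑_j λ_j ∑_{n<j} B_n² ≤ 2 a U_a` (multiply `B - λ*B = 1_[0,a)` by `B` and sum).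
-/
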